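import Pool.Agent.LibBHN.Misc
import Pool.Agent.LibNexp.PowLaw
import Pool.Agent.LibNexp.Values

/-!
The general self-improvement law for advice that complements nondeterministic exponential time.
-/

namespace Pool.Agent.LibSelfLaw

open Function Pool.Agent.LibNexp Pool.Agent.LibBHN

variable {O : List Bool → Bool}

/-- The graph of a function of lengths is in the class. -/
abbrev GraphIn (O : List Bool → Bool) (g : ℕ → ℕ) : Prop :=
  NEXP O fun e : Fin 2 → List Bool => (e 1).length = g (e 0).length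

theorem GraphIn.rel {g : ℕ → ℕ} (hG : GraphIn O g) {k : ℕ} (i j : Fin k) :
    NEXP O fun e : Fin k → List Bool => (e j).length = g (e i).length := by
  refine (NEXP.reindex hG ![i, j]).congr fun e => ?_
  simp

/-- Blocks of a nondecreasing unbounded function have an end. -/
theorem exists_end {g : ℕ → ℕ} {P : ℕ → ℕ} (hP : ∀ n, n ≤ P (g n)) (hg : Monotone g) (n : ℕ) :
    ∃ b, n ≤ b ∧ g b = g n ∧ g b < g (b + 1) := by
  by_contra hcon
  push Not at hcon
  have key : ∀ i, g (n + i) = g n := by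
    intro i
    induction i with
    | zero => rfl
    | succ i ih =>
      have h1 := hcon (n + i) (by omega) ih
      have h2 : g (n + i) ≤ g (n + (i + 1)) := hg (by omega)
      rw [show n + i + 1 = n + (i + 1) by ring] at h1
      omega
  have h1 := hP (n + (P (g n) + 1))
  rw [key] at h1
  omega

/-- The block end is determined by the value. -/
theorem end_unique {g : ℕ → ℕ} (hg : Monotone g) {b b' : ℕ} (h : g b = g b') (hb : g b < g (b + 1))
    (hb' : g b' < g (b' + 1)) : b = b' := by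
  rcases Nat.lt_trichotomy b b' with h1 | h1 | h1
  · have := hg (show b + 1 ≤ b' by omega)
    omega
  · exact h1
  · have := hg (show b' + 1 ≤ b by omega)
    omega

/-- The padded inputs `y` and the instances `a`. -/
def Rel (g : ℕ → ℕ) (y a : List Bool) : Prop :=
  ∃ b, y.length = b + 1 ∧ a.length = g b ∧ g b < g (b + 1)

theorem nexp_rel {g : ℕ → ℕ} (hG : GraphIn O g) {Q : ℕ → ℕ} (hQ : PolyB Q) (hQm : Monotone Q)
    (hgQ : ∀ n, g n ≤ Q n) : NEXP O fun e : Fin 2 → List Bool => Rel g (e 0) (e 1) := by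
  -- variables: y, a, y', a', w
  have h1 : NEXP O fun e : Fin 5 → List Bool => ((e 0).length = 1 * (e 2).length + 1 ∧
      (e 1).length = g (e 2).length) ∧ ((e 3).length = g (e 0).length ∧
      ((e 4).length = 1 * (e 1).length + 1 ∧ (e 4).length ≤ (e 3).length)) :=
    ((nexp_lin 1 1 2 0).and (hG.rel 2 1)).and ((hG.rel 0 3).and
      ((nexp_lin 1 1 1 4).and (nexp_lenLe 4 3)))
  have h2 : NEXP O fun e : Fin 4 → List Bool => ∃ w : List Bool,
      ((e 0).length = 1 * (e 2).length + 1 ∧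
      (e 1).length = g (e 2).length) ∧ ((e 3).length = g (e 0).length ∧
      (w.length = 1 * (e 1).length + 1 ∧ w.length ≤ (e 3).length)) := by
    refine nexp_ex (R := fun (e : Fin 4 → List Bool) w => ((e 0).length = 1 * (e 2).length + 1 ∧
      (e 1).length = g (e 2).length) ∧ ((e 3).length = g (e 0).length ∧
      (w.length = 1 * (e 1).length + 1 ∧ w.length ≤ (e 3).length))) h1 (g := fun n => n) PolyB.id ?_
    rintro e z ⟨-, -, -, h⟩
    exact h.trans (len_le_size e 3)
  have h3 : NEXP O fun e : Fin 3 → List Bool => ∃ a' w : List Bool,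
      ((e 0).length = 1 * (e 2).length + 1 ∧
      (e 1).length = g (e 2).length) ∧ (a'.length = g (e 0).length ∧
      (w.length = 1 * (e 1).length + 1 ∧ w.length ≤ a'.length)) := by
    refine nexp_ex (R := fun (e : Fin 3 → List Bool) a' => ∃ w : List Bool,
      ((e 0).length = 1 * (e 2).length + 1 ∧
      (e 1).length = g (e 2).length) ∧ (a'.length = g (e 0).length ∧
      (w.length = 1 * (e 1).length + 1 ∧ w.length ≤ a'.length))) h2 (g := Q) hQ ?_
    rintro e a' ⟨w, -, h, -⟩
    rw [h]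
    exact (hgQ _).trans (hQm (len_le_size e 0))
  have h4 : NEXP O fun e : Fin 2 → List Bool => ∃ y' a' w : List Bool,
      ((e 0).length = 1 * y'.length + 1 ∧
      (e 1).length = g y'.length) ∧ (a'.length = g (e 0).length ∧
      (w.length = 1 * (e 1).length + 1 ∧ w.length ≤ a'.length)) := by
    refine nexp_ex (R := fun (e : Fin 2 → List Bool) y' => ∃ a' w : List Bool,
      ((e 0).length = 1 * y'.length + 1 ∧
      (e 1).length = g y'.length) ∧ (a'.length = g (e 0).length ∧
      (w.length = 1 * (e 1).length + 1 ∧ w.length ≤ a'.length))) h3 (g := fun n => n) PolyB.id ?_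
    rintro e y' ⟨a', w, ⟨h, -⟩, -⟩
    have := len_le_size e 0
    show _ ≤ size e
    omega
  refine h4.congr fun e => ?_
  constructor
  · rintro ⟨y', a', w, ⟨h5, h6⟩, h7, h8, h9⟩
    refine ⟨y'.length, by omega, h6, ?_⟩
    have h10 : (e 0).length = y'.length + 1 := by omega
    rw [h10] at h7
    omega
  · rintro ⟨b, h5, h6, h7⟩
    refine ⟨List.replicate b true, List.replicate (g (b + 1)) true,
      List.replicate ((e 1).length + 1) true, ⟨by simp; omega, by simpa using h6⟩, ?_, by simp, ?_⟩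
    · rw [List.length_replicate, h5]
    · simp only [List.length_replicate]
      omega

theorem gen_step {L : Lang} (hL : L ∈ NEXPLang O) {g s1 s : ℕ → ℕ} (hg : Monotone g)
    (hG : GraphIn O g) {P Q : ℕ → ℕ} (hPp : PolyB P) (hPm : Monotone P) (hP : ∀ n, n ≤ P (g n))
    (hQ : PolyB Q) (hQm : Monotone Q) (hgQ : ∀ n, g n ≤ Q n)
    (h1 : ∀ L ∈ NEXPLang O, ∃ c : ℕ, Lᶜ ∈ WithAdvice (NEXPLang O) (AtMost fun n => s1 n + c))
    (hs1 : ∀ c : ℕ, ∃ n0, ∀ n, n0 ≤ n → s1 (n + 1) + c ≤ g n)
    (h2 : ∀ U ∈ NEXPLang O, ∃ c : ℕ, Uᶜ ∈ WithAdvice (NEXPLang O) (AtMost fun n => s n + c)) :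
    ∃ c : ℕ, Lᶜ ∈ WithAdvice (NEXPLang O) (AtMost fun n => s (g n) + c) := by
  classical
  set Lp : Lang := {w | ∃ x, (∃ z, IsPad z ∧ w = x ++ z) ∧ x ∈ L} with hLp
  have hLpN : Lp ∈ NEXPLang O := by
    refine (NEXP.exists (R := fun e : Fin 2 → List Bool => (∃ z, IsPad z ∧ e 0 = e 1 ++ z) ∧ e 1 ∈ L)
      ((((nexp_catPad (O := O)).reindex ![1, 0]).congr fun e => ?_).and (nexp_mem hL 1))
      (g := fun n => n) PolyB.id ?_).congr fun e => Iff.rfl
    · simp
    · rintro e z ⟨⟨w, -, h⟩, -⟩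
      simp only [(app1 e z).1, (app1 e z).2] at h
      have := len_le_size e 0
      rw [h, List.length_append] at this
      omega
  have hLpx : ∀ x z, IsPad z → (x ++ z ∈ Lp ↔ x ∈ L) := by
    rintro x z ⟨j, rfl⟩
    constructor
    · rintro ⟨x', ⟨z', ⟨j', rfl⟩, h⟩, hx'⟩
      rw [pad_injective h]
      exact hx'
    · intro h
      exact ⟨x, ⟨_, ⟨j, rfl⟩, rfl⟩, h⟩
  obtain ⟨c0, B, hB, f, hf0, hfB⟩ := h1 Lp hLpN
  have hf : ∀ n, (f n).length ≤ s1 n + c0 := hf0
  have hfB' : ∀ x, x ∉ Lp ↔ pair x (f x.length) ∈ B := fun x => by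
    have := Set.ext_iff.1 hfB x
    simpa using this
  obtain ⟨n0, hn0⟩ := hs1 (c0 + 1)
  have hR := nexp_rel hG hQ hQm hgQ
  have hU : {a | ∃ y, Rel g y a ∧ y ∈ Lp ∧ padded B y a} ∈ NEXPLang O := by
    refine (NEXP.exists (R := fun e : Fin 2 → List Bool =>
      Rel g (e 1) (e 0) ∧ e 1 ∈ Lp ∧ padded B (e 1) (e 0))
      ((hR.reindex ![1, 0]).congr (fun e => ?_) |>.and
        ((nexp_mem hLpN 1).and (((nexp_padded hB).reindex ![1, 0]).congr fun e => ?_)))
      (g := fun n => P n + 1) hPp.succ ?_).congr fun e => Iff.rfl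
    · simp
    · simp
    · rintro e z ⟨⟨b, h3, h4, -⟩, -⟩
      simp only [(app1 e z).1, (app1 e z).2] at h3 h4
      have e0 := len_le_size e 0
      rw [h4] at e0
      have e1 := hP b
      have e2 := hPm e0
      show _ ≤ P (size e) + 1
      omega
  obtain ⟨c1, B1, hB1, g1, hg1, hgB⟩ := h2 _ hU
  have hg1' : ∀ n, (g1 n).length ≤ s n + c1 := hg1
  have hgB' : ∀ a, (¬ ∃ y, Rel g y a ∧ y ∈ Lp ∧ padded B y a) ↔ pair a (g1 a.length) ∈ B1 :=
    fun a => by
      have := Set.ext_iff.1 hgB a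
      simpa using this
  -- the finite table
  set T : Finset (List Bool) := (List.finite_length_lt Bool n0).toFinset.filter fun x => x ∉ L with hT
  have hTx : ∀ x, x ∈ T ↔ x.length < n0 ∧ x ∉ L := by
    intro x
    rw [hT, Finset.mem_filter, Set.Finite.mem_toFinset]
    rfl
  have hC : NEXP O fun e : Fin 2 → List Bool => (∃ x ∈ T, e 0 = x) ∨
      ∃ y a, ((∃ z, IsPad z ∧ y = e 0 ++ z) ∧ a.length = g (e 0).length) ∧
        (Rel g y a ∧ (padded B y a ∧ pair a (e 1) ∈ B1)) := by
    refine (NEXP.finite_exists T fun x _ => nexp_const x 0).or ?_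
    have h3 : NEXP O fun e : Fin 4 → List Bool => ((∃ z, IsPad z ∧ e 2 = e 0 ++ z) ∧
        (e 3).length = g (e 0).length) ∧
        (Rel g (e 2) (e 3) ∧ (padded B (e 2) (e 3) ∧ pair (e 3) (e 1) ∈ B1)) := by
      refine ((((nexp_catPad (O := O)).reindex ![0, 2]).congr fun e => ?_).and (hG.rel 0 3)).and
        (((hR.reindex ![2, 3]).congr fun e => ?_).and
        ((((nexp_padded hB).reindex ![2, 3]).congr fun e => ?_).and (nexp_pair_mem hB1 3 1)))
      · simp
      · simp
      · simp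
    have h4 : NEXP O fun e : Fin 3 → List Bool => ∃ a : List Bool,
        ((∃ z, IsPad z ∧ e 2 = e 0 ++ z) ∧
        a.length = g (e 0).length) ∧
        (Rel g (e 2) a ∧ (padded B (e 2) a ∧ pair a (e 1) ∈ B1)) := by
      refine nexp_ex (R := fun (e : Fin 3 → List Bool) a => ((∃ z, IsPad z ∧ e 2 = e 0 ++ z) ∧
        a.length = g (e 0).length) ∧
        (Rel g (e 2) a ∧ (padded B (e 2) a ∧ pair a (e 1) ∈ B1))) h3 (g := Q) hQ ?_
      rintro e a ⟨⟨-, h⟩, -⟩
      rw [h]
      exact (hgQ _).trans (hQm (len_le_size e 0))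
    refine nexp_ex (R := fun (e : Fin 2 → List Bool) y => ∃ a : List Bool,
        ((∃ z, IsPad z ∧ y = e 0 ++ z) ∧
        a.length = g (e 0).length) ∧
        (Rel g y a ∧ (padded B y a ∧ pair a (e 1) ∈ B1))) h4 (g := fun n => P (Q n) + 1)
        ?_ ?_
    · obtain ⟨p, hp⟩ := hPp
      refine PolyB.mono (f := fun n => P (Q n) + 1) (g := fun n => (Q n ^ p + p) + 1) ?_ ?_
      · exact (hQ.comp_pow p).succ
      · intro n
        have := hp (Q n)
        show P (Q n) + 1 ≤ (Q n ^ p + p) + 1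
        omega
    · rintro e y ⟨a, ⟨-, h⟩, ⟨b, h5, h6, -⟩, -⟩
      have e1 := hP b
      have e2 : g b ≤ Q (size e) := by
        rw [← h6, h]
        exact (hgQ _).trans (hQm (len_le_size e 0))
      have e3 := hPm e2
      show _ ≤ P (Q (size e)) + 1
      omega
  obtain ⟨D, hD, hDC⟩ := rel_of_nexp (C := fun x v => (∃ w ∈ T, x = w) ∨
      ∃ y a, ((∃ z, IsPad z ∧ y = x ++ z) ∧ a.length = g x.length) ∧
        (Rel g y a ∧ (padded B y a ∧ pair a v ∈ B1))) hC
  refine ⟨c1, D, hD, fun n => g1 (g n), fun n => hg1' _, ?_⟩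
  ext x
  show x ∉ L ↔ pair x _ ∈ D
  rw [hDC]
  constructor
  · intro hx
    by_cases hxn : x.length < n0
    · exact Or.inl ⟨x, (hTx x).2 ⟨hxn, hx⟩, rfl⟩
    · right
      obtain ⟨b, hb1, hb2, hb3⟩ := exists_end hP hg x.length
      set z : List Bool := true :: List.replicate (b - x.length) false with hz
      have hzp : IsPad z := ⟨_, rfl⟩
      have hy : (x ++ z).length = b + 1 := by
        rw [hz, List.length_append, List.length_cons, List.length_replicate]; omega
      have hyL : x ++ z ∉ Lp := by rw [hLpx x z hzp]; exact hx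
      rw [hfB', hy] at hyL
      have hfl := hf (b + 1)
      have hfl' := hn0 b (by omega)
      set a := f (b + 1) with ha
      have hal : (a ++ true :: List.replicate (g b - 1 - a.length) false).length = g b := by
        rw [List.length_append, List.length_cons, List.length_replicate]; omega
      refine ⟨x ++ z, a ++ true :: List.replicate (g b - 1 - a.length) false,
        ⟨⟨z, hzp, rfl⟩, by rw [hal, hb2]⟩, ⟨b, hy, hal, hb3⟩, padded_iff.2 hyL, ?_⟩
      have h3 := (hgB' (a ++ true :: List.replicate (g b - 1 - a.length) false)).1 (by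
        rintro ⟨y', ⟨b', h4, h5, h6⟩, h7, h8⟩
        rw [hal] at h5
        have h9 : b = b' := end_unique hg h5 hb3 h6
        subst h9
        rw [padded_iff, ha, ← h4, ← hfB'] at h8
        exact h8 h7)
      rw [hal] at h3
      show pair _ (g1 (g x.length)) ∈ B1
      rw [← hb2]
      exact h3
  · rintro (⟨w, hw, rfl⟩ | ⟨y, a, ⟨⟨z, hz, rfl⟩, h3⟩, h4, h5, h6⟩) hx
    · exact ((hTx _).1 hw).2 hx
    · simp only at h6
      rw [← h3] at h6
      exact (hgB' a).2 h6 ⟨x ++ z, h4, (hLpx x z hz).2 hx, h5⟩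

/-- The hypotheses on the length function. -/
structure Slow (O : List Bool → Bool) (g : ℕ → ℕ) : Prop where
  mono : Monotone g
  lip : ∀ n, g (n + 1) ≤ g n + 1
  poly : ∃ P, PolyB P ∧ Monotone P ∧ ∀ n, n ≤ P (g n)
  graph : GraphIn O g

theorem Slow.le_add {g : ℕ → ℕ} (h : Slow O g) (n : ℕ) : g n ≤ n + g 0 := by
  induction n with
  | zero => simp
  | succ n ih => have := h.lip n; omega

theorem slow_id : Slow O fun n => n where
  mono := monotone_id
  lip := fun n => le_rfl
  poly := ⟨fun n => n, PolyB.id, monotone_id, fun n => le_rfl⟩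
  graph := (nexp_lin 1 0 0 1).congr fun e => by simp

theorem Slow.comp {g h : ℕ → ℕ} (hg : Slow O g) (hh : Slow O h) : Slow O fun n => g (h n) where
  mono := fun a b hab => hg.mono (hh.mono hab)
  lip := fun n => by
    have h1 := hh.lip n
    have h2 := hg.mono h1
    have h3 := hg.lip (h n)
    show g (h (n + 1)) ≤ g (h n) + 1
    omega
  poly := by
    obtain ⟨P, hP1, hP2, hP3⟩ := hg.poly
    obtain ⟨P', ⟨p, hp⟩, hP2', hP3'⟩ := hh.poly
    refine ⟨fun n => P' (P n), ?_, fun a b hab => hP2' (hP2 hab), fun n =>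
      (hP3' n).trans (hP2' (hP3 (h n)))⟩
    exact PolyB.mono (f := fun n => P' (P n)) (g := fun n => P n ^ p + p) (hP1.comp_pow p)
      fun n => hp (P n)
  graph := by
    have h1 : NEXP O fun e : Fin 3 → List Bool => (e 2).length = h (e 0).length ∧
        (e 1).length = g (e 2).length := (hh.graph.rel 0 2).and (hg.graph.rel 2 1)
    have h2 : NEXP O fun e : Fin 2 → List Bool => ∃ z : List Bool, z.length = h (e 0).length ∧
        (e 1).length = g z.length := by
      refine nexp_ex (R := fun (e : Fin 2 → List Bool) z => z.length = h (e 0).length ∧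
        (e 1).length = g z.length) h1 (g := fun n => n + h 0) (PolyB.id.add (PolyB.const _)) ?_
      rintro e z ⟨h3, -⟩
      have h4 := hh.le_add (e 0).length
      have h5 := len_le_size e 0
      show _ ≤ size e + h 0
      omega
    refine h2.congr fun e => ?_
    constructor
    · rintro ⟨z, h3, h4⟩
      rw [h4, h3]
    · intro h3
      exact ⟨List.replicate (h (e 0).length) true, by simp, by simpa using h3⟩

theorem Slow.iterate {g : ℕ → ℕ} (hg : Slow O g) (j : ℕ) : Slow O g^[j] := by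
  induction j with
  | zero => exact slow_id
  | succ j ih =>
    rw [iterate_succ']
    exact hg.comp ih

theorem Slow.exists_large {g : ℕ → ℕ} (hg : Slow O g) (m : ℕ) : ∃ n0, ∀ n, n0 ≤ n → m ≤ g n := by
  obtain ⟨P, -, hP2, hP3⟩ := hg.poly
  refine ⟨P m + 1, fun n hn => ?_⟩
  by_contra hcon
  have h1 := hP3 n
  have h2 := hP2 (show g n ≤ m by omega)
  omega

/-- Self-improvement: if `s(n) + O(1)` bits of advice suffice and `g(n) - s(n)` is unbounded, then
`s(g(g(...g(n)...))) + O(1)` bits suffice. -/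
theorem self_law {g s : ℕ → ℕ} (hg : Slow O g) (hs : ∀ c : ℕ, ∃ n0, ∀ n, n0 ≤ n → s n + c ≤ g n)
    (h : ∀ L ∈ NEXPLang O, ∃ c : ℕ, Lᶜ ∈ WithAdvice (NEXPLang O) (AtMost fun n => s n + c)) (j : ℕ) :
    ∀ L ∈ NEXPLang O, ∃ c : ℕ,
      Lᶜ ∈ WithAdvice (NEXPLang O) (AtMost fun n => s (g^[j] n) + c) := by
  induction j with
  | zero => exact h
  | succ j ih =>
    intro L hL
    have hG := hg.iterate (j + 1)
    have hGj := hg.iterate j
    obtain ⟨P, hP1, hP2, hP3⟩ := hG.poly
    refine gen_step hL (g := g^[j + 1]) (s1 := fun n => s (g^[j] n)) (s := s) hG.mono hG.graph hP1 hP2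
      hP3 (Q := fun n => n + g^[j + 1] 0) (PolyB.id.add (PolyB.const _)) (fun a b hab => by
        show a + _ ≤ b + _
        omega) hG.le_add ih ?_ h
    intro c
    obtain ⟨m0, hm0⟩ := hs (c + 1)
    obtain ⟨n0, hn0⟩ := hGj.exists_large m0
    refine ⟨n0, fun n hn => ?_⟩
    have h1 : m0 ≤ g^[j] (n + 1) := hn0 _ (by omega)
    have h2 := hm0 _ h1
    have h3 := hGj.lip n
    have h4 := hg.mono h3
    have h5 := hg.lip (g^[j] n)
    have h6 : g^[j + 1] n = g (g^[j] n) := iterate_succ_apply' g j n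
    rw [h6]
    show s (g^[j] (n + 1)) + c ≤ _
    omega

end Pool.Agent.LibSelfLaw
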