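import Pool.Agent.LibNexp.LogLaw
import Pool.Agent.LibSelfLaw.Log
import Pool.Agent.LibSelfLaw.Step

/-!
The zero-one law for logarithmic savings.
-/

namespace Pool.Agent.LibSelfLaw

open Function Pool.Agent.LibNexp Pool.Agent.LibBHN

variable {O : List Bool → Bool}

/-- The length function `n - log n / N`. -/
def gl (N n : ℕ) : ℕ := n - Nat.log 2 (n + 1) / N

theorem div_add_le {a b N : ℕ} (hN : 1 ≤ N) : (a + b) / N ≤ a / N + b := by
  have h1 : a + b ≤ a + N * b := by nlinarith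
  calc (a + b) / N ≤ (a + N * b) / N := Nat.div_le_div_right h1
    _ = a / N + b := Nat.add_mul_div_left _ _ (by omega)

theorem log_succ_le (n : ℕ) : Nat.log 2 (n + 1 + 1) ≤ Nat.log 2 (n + 1) + 1 := by
  have h1 : Nat.log 2 ((n + 1) * 2) = Nat.log 2 (n + 1) + 1 :=
    Nat.log_mul_base (by norm_num) (by omega)
  rw [← h1]
  exact Nat.log_mono_right (by omega)

theorem log_le_half (n : ℕ) : Nat.log 2 (n + 1) ≤ n / 2 + 1 := by
  have h1 : n / 2 + 1 ≤ 2 ^ (n / 2) := Nat.lt_two_pow_self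
  have h2 : n + 1 < 2 ^ (n / 2 + 2) := by
    have h3 : 2 ^ (n / 2 + 2) = 2 ^ (n / 2) * 4 := by rw [pow_add]; norm_num
    omega
  have := Nat.log_lt_of_lt_pow (b := 2) (by omega) h2
  omega

theorem logdiv_le (N n : ℕ) : Nat.log 2 (n + 1) / N ≤ n / 2 + 1 :=
  (Nat.div_le_self _ _).trans (log_le_half n)

theorem logdiv_le' {N : ℕ} (n : ℕ) : Nat.log 2 (n + 1) / N ≤ n := by
  have h1 : Nat.log 2 (n + 1) < n + 1 := Nat.log_lt_of_lt_pow (by omega) Nat.lt_two_pow_self
  have h2 := Nat.div_le_self (Nat.log 2 (n + 1)) N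
  omega

theorem gl_poly (N n : ℕ) : n + 2 ≤ 2 * (gl N n + 2) := by
  unfold gl
  have := logdiv_le N n
  omega

theorem slow_gl {N : ℕ} (hN : 1 ≤ N) : Slow O (gl N) where
  mono := by
    refine monotone_nat_of_le_succ fun n => ?_
    unfold gl
    have h1 := log_succ_le n
    have h2 : Nat.log 2 (n + 1 + 1) / N ≤ Nat.log 2 (n + 1) / N + 1 :=
      (Nat.div_le_div_right h1).trans (div_add_le hN)
    omega
  lip := fun n => by
    unfold gl
    have h1 : Nat.log 2 (n + 1) / N ≤ Nat.log 2 (n + 1 + 1) / N :=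
      Nat.div_le_div_right (Nat.log_mono_right (by omega))
    omega
  poly := ⟨fun n => 2 * n + 2, ((PolyB.const 2).mul PolyB.id).add (PolyB.const 2),
    fun a b hab => by show 2 * a + 2 ≤ 2 * b + 2; omega, fun n => by
      have := gl_poly N n
      show n ≤ 2 * gl N n + 2
      omega⟩
  graph := by
    have h1 : NEXP O fun e : Fin 4 → List Bool =>
        (e 2).length = Nat.log 2 ((e 0).length + 1) / N + 0 ∧
        (e 3 = e 1 ++ e 2 ∧ (e 0).length = 1 * (e 3).length + 0) :=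
      (nexp_logDiv hN 0 0 2).and ((nexp_append 1 2 3).and (nexp_lin 1 0 3 0))
    have h2 : NEXP O fun e : Fin 2 → List Bool => ∃ z w : List Bool,
        z.length = Nat.log 2 ((e 0).length + 1) / N + 0 ∧
        (w = e 1 ++ z ∧ (e 0).length = 1 * w.length + 0) := by
      refine nexp_ex2 (R := fun (e : Fin 2 → List Bool) z w =>
        z.length = Nat.log 2 ((e 0).length + 1) / N + 0 ∧
        (w = e 1 ++ z ∧ (e 0).length = 1 * w.length + 0)) h1 (g := fun n => n) PolyB.id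
        monotone_id ?_
      rintro e z w ⟨-, rfl, h3⟩
      have h4 := len_le_size e 0
      rw [List.length_append] at h3 ⊢
      constructor <;> omega
    refine h2.congr fun e => ?_
    have h5 := logdiv_le' (N := N) (e 0).length
    unfold gl
    constructor
    · rintro ⟨z, w, h3, rfl, h4⟩
      rw [List.length_append] at h4
      omega
    · intro h3
      refine ⟨List.replicate (Nat.log 2 ((e 0).length + 1) / N) true, _, by simp, rfl, ?_⟩
      rw [List.length_append, List.length_replicate]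
      omega

theorem gl_iterate_ge (N n j : ℕ) : n + 2 ≤ 2 ^ j * ((gl N)^[j] n + 2) := by
  induction j with
  | zero => simp
  | succ j ih =>
    rw [iterate_succ_apply', pow_succ]
    have h1 := gl_poly N ((gl N)^[j] n)
    calc n + 2 ≤ 2 ^ j * ((gl N)^[j] n + 2) := ih
      _ ≤ 2 ^ j * (2 * (gl N ((gl N)^[j] n) + 2)) := Nat.mul_le_mul_left _ h1
      _ = _ := by ring

theorem log_iterate {N : ℕ} (hN : 1 ≤ N) (n j : ℕ) :
    Nat.log 2 (n + 1) / N ≤ Nat.log 2 ((gl N)^[j] n + 1) / N + (j + 1) := by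
  set m := (gl N)^[j] n with hm
  have h1 := gl_iterate_ge N n j
  rw [← hm] at h1
  have h2 : n + 1 ≤ (m + 1) * 2 ^ (j + 1) := by
    have h3 : 2 ^ j * (m + 2) ≤ 2 ^ j * (2 * (m + 1)) := Nat.mul_le_mul_left _ (by omega)
    have h4 : (m + 1) * 2 ^ (j + 1) = 2 ^ j * (2 * (m + 1)) := by rw [pow_succ]; ring
    omega
  have h3 : Nat.log 2 ((m + 1) * 2 ^ (j + 1)) = Nat.log 2 (m + 1) + (j + 1) := by
    generalize j + 1 = i
    induction i with
    | zero => simp
    | succ i ih =>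
      rw [pow_succ, ← mul_assoc, Nat.log_mul_base (by norm_num) (by positivity), ih]
      ring
  calc Nat.log 2 (n + 1) / N ≤ (Nat.log 2 (m + 1) + (j + 1)) / N := by
        rw [← h3]
        exact Nat.div_le_div_right (Nat.log_mono_right h2)
    _ ≤ _ := div_add_le hN

theorem gl_iterate_le {N : ℕ} (hN : 1 ≤ N) (j : ℕ) : ∃ K, ∀ n,
    (gl N)^[j] n + j * (Nat.log 2 (n + 1) / N) ≤ n + K := by
  induction j with
  | zero => exact ⟨0, fun n => by simp⟩
  | succ j ih =>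
    obtain ⟨K, hK⟩ := ih
    refine ⟨K + (j + 1), fun n => ?_⟩
    rw [iterate_succ_apply']
    have h1 := hK n
    have h2 := log_iterate hN n j
    set m := (gl N)^[j] n with hm
    have h3 := logdiv_le' (N := N) m
    have h4 : gl N m = m - Nat.log 2 (m + 1) / N := rfl
    have h5 : (j + 1) * (Nat.log 2 (n + 1) / N) =
        j * (Nat.log 2 (n + 1) / N) + Nat.log 2 (n + 1) / N := by ring
    omega

/-- `n - C log (n + 1) + O(1)` bits of advice suffice to complement. -/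
def Sav (O : List Bool → Bool) (C : ℝ) : Prop :=
  ∀ L ∈ NEXPLang O, ∃ c : ℝ, Lᶜ ∈ WithAdvice (NEXPLang O)
    {f | ∀ n : ℕ, ((f n).length : ℝ) ≤ n - C * Real.log ((n : ℝ) + 1) + c}

theorem natlog_le (n : ℕ) : (Nat.log 2 (n + 1) : ℝ) * Real.log 2 ≤ Real.log ((n : ℝ) + 1) := by
  have h1 : 2 ^ Nat.log 2 (n + 1) ≤ n + 1 := Nat.pow_log_le_self 2 (by omega)
  have h2 : ((2 : ℝ) ^ Nat.log 2 (n + 1)) ≤ (n : ℝ) + 1 := by exact_mod_cast h1
  have h3 := Real.log_le_log (by positivity) h2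
  rwa [Real.log_pow] at h3

theorem le_natlog (n : ℕ) : Real.log ((n : ℝ) + 1) ≤ ((Nat.log 2 (n + 1) : ℝ) + 1) * Real.log 2 := by
  have h1 : n + 1 < 2 ^ (Nat.log 2 (n + 1) + 1) := Nat.lt_pow_succ_log_self (by norm_num) _
  have h2 : (n : ℝ) + 1 ≤ ((2 : ℝ) ^ (Nat.log 2 (n + 1) + 1)) := by exact_mod_cast h1.le
  have h3 := Real.log_le_log (by positivity) h2
  rw [Real.log_pow] at h3
  push_cast at h3
  exact h3

theorem Sav.law {C : ℝ} (hC : 0 < C) (h : Sav O C) (C' : ℝ) : Sav O C' := by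
  have hl2 : 0 < Real.log 2 := Real.log_pos (by norm_num)
  obtain ⟨N, hN⟩ := exists_nat_gt (2 / (C * Real.log 2))
  have hN0 : (0 : ℝ) < N := lt_trans (by positivity) hN
  have hN1 : 1 ≤ N := by
    have : 0 < N := by exact_mod_cast hN0
    omega
  have hNC : 2 < N * (C * Real.log 2) := by rwa [div_lt_iff₀ (by positivity)] at hN
  have hlog : ∀ n : ℕ, 0 ≤ Real.log ((n : ℝ) + 1) := fun n => Real.log_nonneg (by
    have : (0 : ℝ) ≤ n := Nat.cast_nonneg n
    linarith)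
  -- the bound of the saving
  have hld : ∀ n : ℕ, ((Nat.log 2 (n + 1) / N : ℕ) : ℝ) ≤ C / 2 * Real.log ((n : ℝ) + 1) := by
    intro n
    have h1 : ((Nat.log 2 (n + 1) / N : ℕ) : ℝ) ≤ (Nat.log 2 (n + 1) : ℝ) / N := Nat.cast_div_le
    have h2 := natlog_le n
    refine h1.trans ?_
    rw [div_le_iff₀ hN0]
    have h3 : (Nat.log 2 (n + 1) : ℝ) ≤ Real.log ((n : ℝ) + 1) / Real.log 2 := by
      rwa [le_div_iff₀ hl2]
    refine h3.trans ?_
    rw [div_le_iff₀ hl2]
    have h4 := hlog n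
    have h5 : Real.log ((n : ℝ) + 1) * 2 ≤ Real.log ((n : ℝ) + 1) * (N * (C * Real.log 2)) :=
      mul_le_mul_of_nonneg_left hNC.le h4
    nlinarith
  have hS : Slow O (gl N) := slow_gl hN1
  have hself := self_law (O := O) (g := gl N) (s := fun n => ⌊(n : ℝ) - C * Real.log ((n : ℝ) + 1)⌋₊)
    hS (by
      intro c
      have ht : Filter.Tendsto (fun n : ℕ => C / 2 * Real.log ((n : ℝ) + 1)) Filter.atTop Filter.atTop := by
        refine Filter.Tendsto.const_mul_atTop (by positivity) (Real.tendsto_log_atTop.comp ?_)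
        exact Filter.tendsto_atTop_add_const_right _ _ tendsto_natCast_atTop_atTop
      obtain ⟨n1, hn1⟩ := (Filter.eventually_atTop.1 (ht.eventually_ge_atTop (c : ℝ)))
      obtain ⟨n2, hn2⟩ := hS.exists_large c
      refine ⟨max n1 n2, fun n hn => ?_⟩
      have h1 := hn1 n ((le_max_left _ _).trans hn)
      have h2 := hn2 n ((le_max_right _ _).trans hn)
      rcases le_total ((n : ℝ) - C * Real.log ((n : ℝ) + 1)) 0 with h3 | h3
      · rw [Nat.floor_of_nonpos h3]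
        omega
      · have h4 := Nat.floor_le h3
        have h5 := hld n
        have h6 : (gl N n : ℝ) = (n : ℝ) - ((Nat.log 2 (n + 1) / N : ℕ) : ℝ) := by
          unfold gl
          rw [Nat.cast_sub (logdiv_le' n)]
        have h7 : ((⌊(n : ℝ) - C * Real.log ((n : ℝ) + 1)⌋₊ + c : ℕ) : ℝ) ≤ (gl N n : ℝ) := by
          push_cast
          rw [h6]
          linarith
        exact_mod_cast h7) (by
      intro L hL
      obtain ⟨c, hc⟩ := h L hL
      refine ⟨⌈|c|⌉₊ + 1, WithAdvice.mono (fun f hf n => ?_) hc⟩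
      have h4 : ((f n).length : ℝ) ≤ n - C * Real.log ((n : ℝ) + 1) + c := hf n
      have h5 : (n : ℝ) - C * Real.log ((n : ℝ) + 1) <
          ⌊(n : ℝ) - C * Real.log ((n : ℝ) + 1)⌋₊ + 1 := Nat.lt_floor_add_one _
      have h6 : |c| ≤ ⌈|c|⌉₊ := Nat.le_ceil _
      have h7 : ((f n).length : ℝ) <
          ((⌊(n : ℝ) - C * Real.log ((n : ℝ) + 1)⌋₊ + (⌈|c|⌉₊ + 1) : ℕ) : ℝ) := by
        push_cast
        have := le_abs_self c
        linarith
      show (f n).length ≤ ⌊(n : ℝ) - C * Real.log ((n : ℝ) + 1)⌋₊ + (⌈|c|⌉₊ + 1)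
      exact_mod_cast h7.le)
  obtain ⟨j, hj⟩ := exists_nat_ge (|C'| * (N * Real.log 2))
  obtain ⟨K, hK⟩ := gl_iterate_le hN1 j
  intro L hL
  obtain ⟨c, hc⟩ := hself j L hL
  refine ⟨(K : ℝ) + c + j * 2, WithAdvice.mono (fun f hf n => ?_) hc⟩
  have h1 : (f n).length ≤ ⌊(((gl N)^[j] n : ℕ) : ℝ) - C * Real.log ((((gl N)^[j] n : ℕ) : ℝ) + 1)⌋₊ + c :=
    hf n
  have h2 : ⌊(((gl N)^[j] n : ℕ) : ℝ) - C * Real.log ((((gl N)^[j] n : ℕ) : ℝ) + 1)⌋₊ ≤ (gl N)^[j] n := by
    have h3 := hlog ((gl N)^[j] n)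
    have h4 : (((gl N)^[j] n : ℕ) : ℝ) - C * Real.log ((((gl N)^[j] n : ℕ) : ℝ) + 1) ≤
        (((gl N)^[j] n : ℕ) : ℝ) := by nlinarith
    calc _ ≤ ⌊(((gl N)^[j] n : ℕ) : ℝ)⌋₊ := Nat.floor_mono h4
      _ = _ := Nat.floor_natCast _
  have h3 := hK n
  have h4 : ((f n).length : ℝ) + j * ((Nat.log 2 (n + 1) / N : ℕ) : ℝ) ≤ n + K + c := by
    have : (f n).length + j * (Nat.log 2 (n + 1) / N) ≤ n + K + c := by omega
    exact_mod_cast this
  -- lower bound of the quotient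
  have h5 : Real.log ((n : ℝ) + 1) / (N * Real.log 2) ≤ ((Nat.log 2 (n + 1) / N : ℕ) : ℝ) + 2 := by
    have h6 : Nat.log 2 (n + 1) < N * (Nat.log 2 (n + 1) / N + 1) := Nat.lt_mul_div_succ _ (by omega)
    have h7 : (Nat.log 2 (n + 1) : ℝ) ≤ N * (((Nat.log 2 (n + 1) / N : ℕ) : ℝ) + 1) := by
      exact_mod_cast h6.le
    have h8 := le_natlog n
    rw [div_le_iff₀ (by positivity)]
    have h9 : (1 : ℝ) ≤ N := by exact_mod_cast hN1
    have h10 : ((Nat.log 2 (n + 1) : ℝ) + 1) * Real.log 2 ≤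
        (N * (((Nat.log 2 (n + 1) / N : ℕ) : ℝ) + 1) + N) * Real.log 2 :=
      mul_le_mul_of_nonneg_right (by linarith) hl2.le
    calc Real.log ((n : ℝ) + 1) ≤ _ := h8
      _ ≤ _ := h10
      _ = _ := by ring
  have h6 : C' * Real.log ((n : ℝ) + 1) ≤ j * (Real.log ((n : ℝ) + 1) / (N * Real.log 2)) := by
    rw [mul_div_assoc', le_div_iff₀ (by positivity)]
    have h7 := hlog n
    have h8 : C' ≤ |C'| := le_abs_self _
    have h9 : C' * (N * Real.log 2) ≤ j :=
      (mul_le_mul_of_nonneg_right h8 (by positivity)).trans hj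
    nlinarith
  have h7 : (j : ℝ) * (Real.log ((n : ℝ) + 1) / (N * Real.log 2)) ≤
      j * (((Nat.log 2 (n + 1) / N : ℕ) : ℝ) + 2) := mul_le_mul_of_nonneg_left h5 (by positivity)
  show ((f n).length : ℝ) ≤ n - C' * Real.log ((n : ℝ) + 1) + (K + c + j * 2)
  nlinarith

end Pool.Agent.LibSelfLaw
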